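import Mathlib
import Pool.Agent.Y960.Fat.PL
import Pool.Agent.Y960.Fat.Lac

/-!
# Bounded on every region `R`, no limit along any ray at any point, and the sharp growth condition
-/

set_option autoImplicit false

open Filter Topology InnerProductSpace

namespace Pool.Agent.Results.MP_653b50_an.SharpGrowth

/-- The product `U` of `n` upper half planes in `ℂ^n`. -/
def HalfPlanes (n : ℕ) : Set (Fin n → ℂ) := {z | ∀ j, 0 < (z j).im}

/-- `u` is multiply harmonic on `U`: harmonic in each variable separately, the other variables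
being held fixed. -/
def MultiplyHarmonic {n : ℕ} (u : (Fin n → ℂ) → ℝ) : Prop :=
  ∀ z ∈ HalfPlanes n, ∀ j : Fin n,
    HarmonicAt (fun w : ℂ => u (Function.update z j w)) (z j)

/-- The region `R` of points of `U` with `c₁ ≤ y_j / y_k ≤ c₂` for all `j < k`. -/
def Region (n : ℕ) (c₁ c₂ : ℝ) : Set (Fin n → ℂ) :=
  {z | z ∈ HalfPlanes n ∧
    ∀ j k : Fin n, j < k → c₁ ≤ (z j).im / (z k).im ∧ (z j).im / (z k).im ≤ c₂}

/-- The product cone `Γ(x)`: points of `U` with `|x_j - x̄_j| < y_j` for all `j`. -/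
def ProductCone {n : ℕ} (x : Fin n → ℝ) : Set (Fin n → ℂ) :=
  {z | z ∈ HalfPlanes n ∧ ∀ j, |(z j).re - x j| < (z j).im}

/-- `u` has a restricted limit at the boundary point `x`. -/
def HasRestrictedLimitAt {n : ℕ} (u : (Fin n → ℂ) → ℝ) (c₁ c₂ : ℝ) (x : Fin n → ℝ) : Prop :=
  ∃ ℓ : ℝ, Tendsto u
    (𝓝[ProductCone x ∩ Region n c₁ c₂] (fun j => ((x j : ℝ) : ℂ))) (𝓝 ℓ)

/-- The point `x + i t η` of the ray with the direction `i η` at the boundary point `x`. -/
noncomputable def ray {n : ℕ} (x η : Fin n → ℝ) (t : ℝ) : Fin n → ℂ :=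
  fun j => (x j : ℂ) + ((t * η j : ℝ) : ℂ) * Complex.I

/-- `u` has sublinear growth in each variable: if `z` is in `U` and `w` is above the `k`-th
coordinate of `z`, the value at the point with the `k`-th coordinate replaced by `w` is
`o(Im w)` (more precisely, at most `K + ε Im w`, `K` depending on `z` and `ε` only). -/
def SublinearGrowth {n : ℕ} (u : (Fin n → ℂ) → ℝ) : Prop :=
  ∀ z ∈ HalfPlanes n, ∀ (k : Fin n) (ε : ℝ), 0 < ε → ∃ K : ℝ, ∀ w : ℂ, (z k).im ≤ w.im →
    |u (Function.update z k w)| ≤ K + ε * w.im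

lemma ray_im {n : ℕ} (x η : Fin n → ℝ) (t : ℝ) (j : Fin n) : (ray x η t j).im = t * η j := by
  simp [ray]

lemma ray_re {n : ℕ} (x η : Fin n → ℝ) (t : ℝ) (j : Fin n) : (ray x η t j).re = x j := by
  simp [ray]

/-- first part: the example -/
lemma example_part (n : ℕ) (a b : Fin n) (hne : a ≠ b) : ∃ u : (Fin n → ℂ) → ℝ,
    MultiplyHarmonic u ∧
    (∀ z ∈ HalfPlanes n, |u z| ≤ 4 * ((z b).im / (z a).im)) ∧
    ∀ x η : Fin n → ℝ, (∀ j, 0 < η j) →
      (∀ δ > 0, ∃ᶠ t in 𝓝[>] (0 : ℝ), |u (ray x η t)| < δ) ∧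
      ∃ᶠ t in 𝓝[>] (0 : ℝ), η b / η a / 100 ≤ |u (ray x η t)| := by
  refine ⟨fun z => (z b).im * (Pool.Agent.Y960.Fat.V (z a)).re, ?_, ?_, ?_⟩
  · intro z hz j
    by_cases hja : j = a
    · subst hja
      have h1 : (fun w : ℂ => (Function.update z j w b).im *
          (Pool.Agent.Y960.Fat.V (Function.update z j w j)).re)
          = (z b).im • fun w : ℂ => (Pool.Agent.Y960.Fat.V w).re := by
        funext w
        simp [Function.update_of_ne hne.symm]
      rw [h1]
      exact ((Pool.Agent.Y960.Fat.analyticAt_V (hz j)).harmonicAt_re).const_smul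
    · by_cases hjb : j = b
      · subst hjb
        have h1 : (fun w : ℂ => (Function.update z j w j).im *
            (Pool.Agent.Y960.Fat.V (Function.update z j w a)).re)
            = (Pool.Agent.Y960.Fat.V (z a)).re • fun w : ℂ => (w).im := by
          funext w
          simp [Function.update_of_ne hne, mul_comm]
        rw [h1]
        exact (AnalyticAt.harmonicAt_im (f := fun w : ℂ => w) analyticAt_id).const_smul
      · have h1 : (fun w : ℂ => (Function.update z j w b).im *
            (Pool.Agent.Y960.Fat.V (Function.update z j w a)).re)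
            = fun w : ℂ => (z b).im * (Pool.Agent.Y960.Fat.V (z a)).re := by
          funext w
          rw [Function.update_of_ne (Ne.symm hjb), Function.update_of_ne (Ne.symm hja)]
        rw [h1]
        exact harmonicAt_const _
  · intro z hz
    have hza := hz a
    have hzb := hz b
    have h4 := (Complex.abs_re_le_norm (Pool.Agent.Y960.Fat.V (z a))).trans
      (Pool.Agent.Y960.Fat.norm_V_le hza)
    show |(z b).im * (Pool.Agent.Y960.Fat.V (z a)).re| ≤ 4 * ((z b).im / (z a).im)
    rw [abs_mul, abs_of_pos hzb]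
    calc (z b).im * |(Pool.Agent.Y960.Fat.V (z a)).re| ≤ (z b).im * (4 / (z a).im) :=
          mul_le_mul_of_nonneg_left h4 hzb.le
      _ = 4 * ((z b).im / (z a).im) := by ring
  · intro x η hη
    have hηa := hη a
    have hηb := hη b
    -- the values on the ray
    have hval : ∀ (s : ℝ) (m : ℕ), (ray x η (s / Pool.Agent.Y960.Fat.N (m + 1) / η a) b).im *
        (Pool.Agent.Y960.Fat.V (ray x η (s / Pool.Agent.Y960.Fat.N (m + 1) / η a) a)).re =
        η b / η a * Pool.Agent.Y960.Fat.vv (x a) s m := by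
      intro s m
      have hN := (Pool.Agent.Y960.Fat.N_pos (m + 1)).ne'
      have e1 : ray x η (s / Pool.Agent.Y960.Fat.N (m + 1) / η a) a
          = (x a : ℂ) + ((s / Pool.Agent.Y960.Fat.N (m + 1) : ℝ) : ℂ) * Complex.I := by
        simp only [ray]
        congr 3
        field_simp
      rw [ray_im, e1]
      unfold Pool.Agent.Y960.Fat.vv
      field_simp
    have hr : 0 < η b / η a := by positivity
    constructor
    · intro δ hδ
      have hδ' : 0 < δ / (η b / η a) := by positivity
      have h1 := Pool.Agent.Y960.Fat.vv_small (x a) _ hδ'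
      have hs : 0 < δ / (η b / η a) / 4 := by positivity
      refine (Pool.Agent.Y960.Fat.heights hs hηa).frequently (Eventually.frequently ?_)
      filter_upwards [h1] with m hm
      rw [hval, abs_mul, abs_of_pos hr]
      rwa [lt_div_iff₀' hr] at hm
    · rcases Pool.Agent.Y960.Fat.vv_big (x a) with h | h
      · refine (Pool.Agent.Y960.Fat.heights one_pos hηa).frequently (h.mono ?_)
        intro m hm
        beta_reduce
        rw [hval, abs_mul, abs_of_pos hr]
        calc η b / η a / 100 = η b / η a * (1 / 100) := by ring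
          _ ≤ _ := mul_le_mul_of_nonneg_left hm hr.le
      · refine (Pool.Agent.Y960.Fat.heights two_pos hηa).frequently (h.mono ?_)
        intro m hm
        beta_reduce
        rw [hval, abs_mul, abs_of_pos hr]
        calc η b / η a / 100 = η b / η a * (1 / 100) := by ring
          _ ≤ _ := mul_le_mul_of_nonneg_left hm hr.le

/-- oscillation along a ray in the region excludes a restricted limit -/
lemma no_restricted_limit {n : ℕ} {u : (Fin n → ℂ) → ℝ} {c₁ c₂ : ℝ}
    (hR : (Region n c₁ c₂).Nonempty) (a b : Fin n)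
    (hu : ∀ x η : Fin n → ℝ, (∀ j, 0 < η j) →
      (∀ δ > 0, ∃ᶠ t in 𝓝[>] (0 : ℝ), |u (ray x η t)| < δ) ∧
      ∃ᶠ t in 𝓝[>] (0 : ℝ), η b / η a / 100 ≤ |u (ray x η t)|) (x : Fin n → ℝ) :
    ¬ HasRestrictedLimitAt u c₁ c₂ x := by
  rintro ⟨ℓ, hℓ⟩
  obtain ⟨z₀, hz₀U, hz₀R⟩ := hR
  have hη : ∀ j, 0 < (z₀ j).im := hz₀U
  set η : Fin n → ℝ := fun j => (z₀ j).im with hηd
  have hmem : ∀ t : ℝ, 0 < t → ray x η t ∈ ProductCone x ∩ Region n c₁ c₂ := by
    intro t ht
    have hU : ray x η t ∈ HalfPlanes n := fun j => by rw [ray_im]; exact mul_pos ht (hη j)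
    refine ⟨⟨hU, fun j => ?_⟩, hU, fun j k hjk => ?_⟩
    · rw [ray_re, ray_im]; simpa using mul_pos ht (hη j)
    · rw [ray_im, ray_im, mul_div_mul_left _ _ ht.ne']
      exact hz₀R j k hjk
  have hcont : Tendsto (ray x η) (𝓝[>] 0) (𝓝 (fun j => ((x j : ℝ) : ℂ))) := by
    have hc : Continuous (ray x η) := by
      unfold ray; fun_prop
    have h0 : ray x η 0 = fun j => ((x j : ℝ) : ℂ) := by
      funext j; simp [ray]
    rw [← h0]
    exact (hc.tendsto 0).mono_left nhdsWithin_le_nhds
  have hpl : Tendsto (ray x η) (𝓝[>] 0)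
      (𝓝[ProductCone x ∩ Region n c₁ c₂] (fun j => ((x j : ℝ) : ℂ))) :=
    tendsto_nhdsWithin_iff.mpr ⟨hcont, by
      filter_upwards [self_mem_nhdsWithin] with t ht using hmem t ht⟩
  have hlim : Tendsto (fun t => |u (ray x η t)|) (𝓝[>] 0) (𝓝 |ℓ|) := (hℓ.comp hpl).abs
  obtain ⟨h1, h2⟩ := hu x η hη
  -- the limit is zero
  have hℓ0 : |ℓ| ≤ 0 := by
    by_contra hcon
    push Not at hcon
    have h3 : ∀ᶠ t in 𝓝[>] (0 : ℝ), |ℓ| / 2 < |u (ray x η t)| :=
      hlim.eventually_const_lt (by linarith)
    obtain ⟨t, h4, h5⟩ := ((h1 (|ℓ| / 2) (by positivity)).and_eventually h3).exists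
    linarith
  -- the limit is not zero
  have hr : 0 < η b / η a / 100 := by
    have := hη a
    have := hη b
    positivity
  have h3 : ∀ᶠ t in 𝓝[>] (0 : ℝ), |u (ray x η t)| < η b / η a / 100 :=
    hlim.eventually_lt_const (by linarith)
  obtain ⟨t, h4, h5⟩ := (h2.and_eventually h3).exists
  linarith

/-- second part: functions of sublinear growth -/
lemma sublinear_part {n : ℕ} {u : (Fin n → ℂ) → ℝ} {η : Fin n → ℝ} {M : ℝ}
    (hu : MultiplyHarmonic u) (hg : SublinearGrowth u) (hη : ∀ j, 0 < η j)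
    (hM : ∀ (x : Fin n → ℝ) (t : ℝ), 0 < t → |u (ray x η t)| ≤ M) :
    ∀ z ∈ HalfPlanes n, |u z| ≤ M := by
  classical
  have hind : ∀ t : ℝ, 0 < t → ∀ S : Finset (Fin n), ∀ z : Fin n → ℂ,
      (∀ j, j ∉ S → (z j).im = t * η j) → (∀ j ∈ S, t * η j ≤ (z j).im) → |u z| ≤ M := by
    intro t ht S
    induction S using Finset.induction_on with
    | empty =>
      intro z hz _
      have h1 : z = ray (fun j => (z j).re) η t := by
        funext j
        refine Complex.ext ?_ ?_
        · rw [ray_re]
        · rw [ray_im, hz j (Finset.notMem_empty j)]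
      rw [h1]
      exact hM _ t ht
    | insert k S hk ih =>
      intro z hz1 hz2
      have hzk : t * η k ≤ (z k).im := hz2 k (Finset.mem_insert_self k S)
      have htk : 0 < t * η k := mul_pos ht (hη k)
      have hzU : z ∈ HalfPlanes n := by
        intro j
        have htj : 0 < t * η j := mul_pos ht (hη j)
        by_cases hj : j ∈ insert k S
        · exact lt_of_lt_of_le htj (hz2 j hj)
        · rw [hz1 j hj]
          exact htj
      have hupd : ∀ w : ℂ, 0 < w.im → Function.update z k w ∈ HalfPlanes n := by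
        intro w hw j
        by_cases hj : j = k
        · subst hj
          rw [Function.update_self]
          exact hw
        · rw [Function.update_of_ne hj]
          exact hzU j
      have hharm : ∀ w : ℂ, 0 < w.im → HarmonicAt (fun w : ℂ => u (Function.update z k w)) w := by
        intro w hw
        have h1 := hu (Function.update z k w) (hupd w hw) k
        rw [Function.update_self] at h1
        simpa only [Function.update_idem] using h1
      have hbd : ∀ w : ℂ, w.im = t * η k → |u (Function.update z k w)| ≤ M := by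
        intro w hw
        refine ih _ ?_ ?_
        · intro j hj
          by_cases hjk : j = k
          · subst hjk
            rw [Function.update_self, hw]
          · rw [Function.update_of_ne hjk]
            exact hz1 j (by rw [Finset.mem_insert]; push Not; exact ⟨hjk, hj⟩)
        · intro j hj
          have hjk : j ≠ k := fun h => hk (h ▸ hj)
          rw [Function.update_of_ne hjk]
          exact hz2 j (Finset.mem_insert_of_mem hj)
      have hgr : ∀ ε > 0, ∃ K : ℝ, ∀ w : ℂ, t * η k ≤ w.im →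
          |u (Function.update z k w)| ≤ K + ε * w.im := by
        intro ε hε
        set w₀ : ℂ := ((t * η k : ℝ) : ℂ) * Complex.I with hw₀
        have hw₀im : w₀.im = t * η k := by simp [hw₀]
        obtain ⟨K, hK⟩ := hg (Function.update z k w₀) (hupd w₀ (by rw [hw₀im]; exact htk)) k ε hε
        refine ⟨K, fun w hw => ?_⟩
        have h1 := hK w (by rw [Function.update_self, hw₀im]; exact hw)
        rwa [Function.update_idem] at h1
      have h1 : u z ≤ M := by
        have h2 := Pool.Agent.Y960.Fat.pl (h := fun w => u (Function.update z k w)) htk hharm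
          (fun w hw => (le_abs_self _).trans (hbd w hw)) hgr (z k) hzk
        simpa only [Function.update_eq_self] using h2
      have h2 : -u z ≤ M := by
        have h3 := Pool.Agent.Y960.Fat.pl (h := fun w => -u (Function.update z k w)) htk
          (fun w hw => (hharm w hw).neg)
          (fun w hw => (neg_le_abs _).trans (hbd w hw))
          (fun ε hε => by
            obtain ⟨K, hK⟩ := hgr ε hε
            exact ⟨K, fun w hw => by rw [abs_neg]; exact hK w hw⟩) (z k) hzk
        simpa only [Function.update_eq_self] using h3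
      exact abs_le.2 ⟨by linarith, h1⟩
  intro z hz
  obtain ⟨t, ht1, ht2⟩ : ∃ t : ℝ, 0 < t ∧ ∀ j, t * η j ≤ (z j).im := by
    have h1 : ∀ᶠ t in 𝓝[>] (0 : ℝ), ∀ j, t * η j ≤ (z j).im := by
      rw [Filter.eventually_all]
      intro j
      have h2 : Tendsto (fun t : ℝ => t * η j) (𝓝[>] 0) (𝓝 (0 * η j)) :=
        (Continuous.tendsto (by fun_prop) 0).mono_left nhdsWithin_le_nhds
      rw [zero_mul] at h2
      exact h2.eventually_le_const (hz j)
    obtain ⟨t, h2, h3⟩ := (h1.and self_mem_nhdsWithin).exists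
    exact ⟨t, h3, h2⟩
  exact hind t ht1 Finset.univ z (fun j hj => absurd (Finset.mem_univ j) hj) (fun j _ => ht2 j)

/-- (1) For all different coordinates `a, b` there is one multiply harmonic function `u` with
`|u| ≤ 4 y_b / y_a` on the whole of `U`, hence bounded on every region `R` simultaneously, which
oscillates along every ray at every boundary point: `liminf |u| = 0` and
`limsup |u| ≥ η_b / (100 η_a)`. Hence there is no restricted limit at any point, for any region.
(2) The linear growth in one variable cannot be improved: a multiply harmonic function of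
sublinear growth in each variable which is bounded by `M` on the points `x + i t η`, for one `η`,
is bounded by `M` on the whole of `U`. -/
theorem result :
    (∀ (n : ℕ) (a b : Fin n), a ≠ b → ∃ u : (Fin n → ℂ) → ℝ, MultiplyHarmonic u ∧
      (∀ z ∈ HalfPlanes n, |u z| ≤ 4 * ((z b).im / (z a).im)) ∧
      (∀ c₁ c₂ : ℝ, 0 < c₁ → (∃ C : ℝ, ∀ z ∈ Region n c₁ c₂, |u z| ≤ C) ∧
        ((Region n c₁ c₂).Nonempty → ∀ x : Fin n → ℝ, ¬ HasRestrictedLimitAt u c₁ c₂ x)) ∧
      ∀ x η : Fin n → ℝ, (∀ j, 0 < η j) →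
        (∀ δ > 0, ∃ᶠ t in 𝓝[>] (0 : ℝ), |u (ray x η t)| < δ) ∧
        ∃ᶠ t in 𝓝[>] (0 : ℝ), η b / η a / 100 ≤ |u (ray x η t)|) ∧
    ∀ (n : ℕ) (u : (Fin n → ℂ) → ℝ) (η : Fin n → ℝ) (M : ℝ),
      MultiplyHarmonic u → SublinearGrowth u → (∀ j, 0 < η j) →
      (∀ (x : Fin n → ℝ) (t : ℝ), 0 < t → |u (ray x η t)| ≤ M) →
      ∀ z ∈ HalfPlanes n, |u z| ≤ M := by
  refine ⟨?_, fun n u η M hu hg hη hM => sublinear_part hu hg hη hM⟩
  intro n a b hab
  obtain ⟨u, h1, h2, h3⟩ := example_part n a b hab
  refine ⟨u, h1, h2, ?_, h3⟩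
  intro c₁ c₂ hc₁
  refine ⟨⟨4 * max (1 / c₁) c₂, ?_⟩, fun hR x => no_restricted_limit hR a b h3 x⟩
  rintro z ⟨hzU, hzR⟩
  refine (h2 z hzU).trans (mul_le_mul_of_nonneg_left ?_ (by norm_num))
  have hza := hzU a
  have hzb := hzU b
  rcases lt_or_gt_of_ne hab with h | h
  · refine le_trans ?_ (le_max_left _ _)
    have h4 := (hzR a b h).1
    rw [le_div_iff₀ hzb] at h4
    rw [div_le_div_iff₀ hza hc₁]
    linarith
  · exact ((hzR b a h).2).trans (le_max_right _ _)

end Pool.Agent.Results.MP_653b50_an.SharpGrowth
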